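import Pool.Agent.helper17.EXT.Spec

/-!
# Row ft:ACS of project EXT (MP_561ff4_al): short root elements on long root vectors
-/

set_option autoImplicit false

open Finset

namespace Pool.Agent.EXT

open Pool.Agent.EXC

theorem ACS (hRTF : RTF_stmt) : ACS_stmt := by
  intro K _ τ _ γ β hγ hβ
  obtain ⟨r1, r2, r3, r4, -, -, -, -, -, -, -, -, r13, -, -⟩ := hRTF
  have hpb : pv β = β := hβ.2
  have hγ1 : ip C6 γ γ = 2 := hγ.1
  have hβ1 : ip C6 β β = 2 := hβ.1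
  have h1 : ip C6 (pv γ) β = ip C6 γ β := by
    have := r1 γ β
    rw [hpb] at this
    exact this
  have hπ : ip C6 (pv γ) (pv γ) = 2 := by rw [r1, hγ1]
  have h0 : ip C6 γ (pv γ) = 0 := r13 γ hγ
  obtain ⟨l1, l2⟩ := ip_abs_le (C := C6) hγ1 hβ1
  have hm2 : ip C6 γ β ≠ -2 := by
    intro h
    have e := eq_neg_of_ip_eq_neg_two (C := C6) hγ1 hβ1 h
    apply hγ.2
    have e2 : pv γ = pv (-β) := by rw [e, neg_neg]
    rw [e2, r4, hpb, e, neg_neg]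
  have hp2 : ip C6 γ β ≠ 2 := by
    intro h
    have e := eq_of_ip_eq_two (C := C6) hγ1 hβ1 h
    apply hγ.2
    rw [e, hpb]
  refine ⟨h1, by omega, by omega, ?_⟩
  intro t g hg
  obtain ⟨-, hE, hX, -⟩ := f_EXF 6 C6 K (f_NBR 6 C6 1 th ![0, 2, 3, 4, 5] f_DE6.2).1
  obtain ⟨-, -, -, -, hx, -⟩ := hX _ (hE _ hγ1)
  obtain ⟨g1, -, e1⟩ := hx t
  have f1 : ∀ v, g1 v = xe C6 (E C6 γ) t v := e1
  obtain ⟨a0, a1, -, -, -⟩ := f_ACT 6 C6 K γ t hγ1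
  obtain ⟨b0, b1, -, -, -⟩ := f_ACT 6 C6 K (pv γ) ((sn γ : K) * τ t) hπ
  constructor
  · intro h
    rw [hg, b0 β hβ1 (by rw [h1]; exact h), a0 β hβ1 h]
  · intro h
    have hpm : ip C6 (pv γ) β = -1 := by rw [h1, h]
    have hr : ip C6 (pv γ + β) (pv γ + β) = 2 := (add_root_iff (C := C6) hπ hβ1).mpr hpm
    have hr1 : ip C6 γ (pv γ + β) = -1 := by rw [ip_add_right, h0, h]; norm_num
    have hr2 : ip C6 (γ + (pv γ + β)) (γ + (pv γ + β)) = 2 := (add_root_iff (C := C6) hγ1 hr).mpr hr1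
    refine ⟨⟨?_, ?_⟩, ?_⟩
    · rw [add_assoc]
      exact hr2
    · rw [r3, r3, r2, hpb, add_comm (pv γ) γ]
    · rw [hg, b1 β hβ1 hpm, ← f1, map_add, map_smul, f1, f1, a1 β hβ1 h, a1 _ hr hr1, ← add_assoc γ (pv γ) β]
      module

end Pool.Agent.EXT
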